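import Pool.Agent.R711.GP.Main

/-!
# R-tilde is a left congruence on graph products of monoids
-/

namespace Pool.Agent.Results.MP_96aaf1_al.LeftCongruence

open Pool.Agent.R711.GP

universe u v

/-- If R-tilde is a left congruence on every vertex monoid, then it is a left congruence on
the graph product. -/
theorem result : ∀ (V : Type u) (G : SimpleGraph V) (M : V → Type v) [∀ α, Monoid (M α)],
    (∀ α : V, IsLeftCongruence (RTilde (S := M α))) →
      IsLeftCongruence (RTilde (S := GraphProduct G M)) := by
  intro V G M _ h
  exact main h

end Pool.Agent.Results.MP_96aaf1_al.LeftCongruence
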